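import Pool.Agent.Q5.RF.Law
import Pool.Agent.Q5.RW.Wide

/-! The fields without automorphisms suffice inside every class of degrees that is closed under
multiplication by the large prime numbers. -/

set_option autoImplicit false
set_option linter.unusedSectionVars false

namespace Pool.Agent.Q5.RX

open NumberField Polynomial Module Pool.Agent.W353.NF Pool.Agent.W401.Cheb Pool.Agent.Q5.BR
open Pool.Agent.Q5.VL (IsLaw)
open Pool.Agent.Q5.RF (Rigid exists_rigid_relation)

section
variable {K : Type} [Field K] [NumberField K]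
  {P : ∀ (F : Type) [Field F] [NumberField F] [Algebra K F], ℤ → Prop}

/-- one prime number -/
theorem prime_of_rigid (hP : IsLaw P) (F : Type) [Field F] [NumberField F] [Algebra K F]
    {p : ℕ} (hp : p.Prime) (hlt : finrank ℚ F + 1 < p)
    (h : ∀ (X : Type) [Field X] [NumberField X] [Algebra K X] [Algebra F X] [IsScalarTower K F X],
      Rigid X → (finrank F X = p ∨ finrank F X = p ^ 2) → P X 1) : P F (p : ℤ) := by
  have hpf : Fact p.Prime := ⟨hp⟩
  obtain ⟨ι, _, Y, nn, hdeg, hrig, hrel⟩ := exists_rigid_relation F p hlt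
  let _ : ∀ j, Algebra K (Y j).F := fun j =>
    ((algebraMap F (Y j).F).comp (algebraMap K F)).toAlgebra
  have : ∀ j, IsScalarTower K F (Y j).F := fun j =>
    IsScalarTower.of_algebraMap_eq fun x => rfl
  have h1 := hP.step F ι Y nn p hrel 1 (fun j => h (Y j).F (hrig j) (hdeg j))
  rwa [mul_one] at h1

/-- two prime numbers -/
theorem one_of_two_primes (hP : IsLaw P) (F : Type) [Field F] [NumberField F] [Algebra K F]
    {p q : ℕ} (hp : p.Prime) (hq : q.Prime) (hpq : p ≠ q) (h1 : P F (p : ℤ)) (h2 : P F (q : ℤ)) :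
    P F 1 := by
  refine VL.one_of_gcd hP F (D := {p, q}) ?_ ?_
  · intro g hg
    exact Nat.eq_one_of_dvd_coprimes ((Nat.coprime_primes hp hq).2 hpq) (hg p (by simp))
      (hg q (by simp))
  · rintro d (rfl | rfl)
    · exact h1
    · exact h2

/-- **A class of degrees.** -/
theorem rigid_degree_law (hP : IsLaw P) {D : Set ℕ} {p₀ : ℕ}
    (hD : ∀ d ∈ D, ∀ p : ℕ, p.Prime → p₀ < p → d * p ∈ D)
    (h : ∀ (X : Type) [Field X] [NumberField X] [Algebra K X], Rigid X → finrank K X ∈ D → P X 1)
    (F : Type) [Field F] [NumberField F] [Algebra K F] (hF : finrank K F ∈ D) : P F 1 := by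
  have key : ∀ p : ℕ, p.Prime → finrank ℚ F + 1 < p → p₀ < p → P F (p : ℤ) := by
    intro p hp hlt hp0
    refine prime_of_rigid hP F hp hlt fun X _ _ _ _ _ hX hdeg => h X hX ?_
    rw [← finrank_mul_finrank K F X]
    rcases hdeg with h4 | h4
    · rw [h4]
      exact hD _ hF p hp hp0
    · rw [h4, sq, ← mul_assoc]
      exact hD _ (hD _ hF p hp hp0) p hp hp0
  obtain ⟨p, hp1, hp⟩ := Nat.exists_infinite_primes (finrank ℚ F + p₀ + 2)
  obtain ⟨q, hq1, hq⟩ := Nat.exists_infinite_primes (p + 1)
  exact one_of_two_primes hP F hp hq (by omega) (key p hp (by omega) (by omega))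
    (key q hq (by omega) (by omega))

end

end Pool.Agent.Q5.RX
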